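import Pool.Agent.H80.LD.Targets

/-!
# MP_47c37b, row GKS: the first Griffiths inequality
-/

set_option autoImplicit false

open MeasureTheory Filter Topology
open scoped ENNReal InnerProductSpace

namespace Pool.Agent.H94.LD

open Pool.Agent.H80.LD
open Pool.Agent.H43.DPC (V S SD)

variable {d : ℕ} {e : V d}

/-- the system without couplings -/
noncomputable def A0 (A : Sys d e) : Sys d e where
  N := A.N
  pos := A.pos
  w := A.w
  J := fun _ _ => 0
  g := A.g
  b := A.b
  σ := A.σ
  w_nonneg := A.w_nonneg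
  J_nonneg := fun _ _ => le_rfl
  J_symm := fun _ _ => rfl
  g_pos := A.g_pos
  σ_σ := A.σ_σ
  pos_σ := A.pos_σ
  off := A.off
  w_σ := A.w_σ
  g_σ := A.g_σ
  b_σ := A.b_σ
  J_σ := fun _ _ => rfl
  rp := by intro c _; simp

theorem A0_H (A : Sys d e) (φ : Fin A.N → ℝ) :
    (A0 A).H φ = ∑ x, (A.g x * φ x ^ 4 + A.b x * φ x ^ 2) := by
  unfold Sys.H A0
  simp

theorem one_dim (g b : ℝ) (m : ℕ) :
    0 ≤ ∫ t : ℝ, t ^ m * Real.exp (-(g * t ^ 4 + b * t ^ 2)) := by
  rcases Nat.even_or_odd m with hm | hm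
  · exact integral_nonneg fun t => mul_nonneg (hm.pow_nonneg t) (Real.exp_pos _).le
  · have h1 := integral_neg_eq_self (fun t : ℝ => t ^ m * Real.exp (-(g * t ^ 4 + b * t ^ 2))) volume
    have h2 : ∀ t : ℝ, (-t) ^ m * Real.exp (-(g * (-t) ^ 4 + b * (-t) ^ 2)) =
        -(t ^ m * Real.exp (-(g * t ^ 4 + b * t ^ 2))) := by
      intro t
      rw [hm.neg_pow, (by decide : Even 4).neg_pow, (by decide : Even 2).neg_pow]
      ring
    simp only [h2] at h1
    rw [integral_neg] at h1
    linarith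

theorem base_pos (A : Sys d e) (m : Fin A.N → ℕ) :
    0 ≤ ∫ z : Fin A.N → ℝ, (∏ k, z k ^ m k) *
      Real.exp (-∑ x, (A.g x * z x ^ 4 + A.b x * z x ^ 2)) := by
  have h1 : ∀ z : Fin A.N → ℝ, (∏ k, z k ^ m k) *
      Real.exp (-∑ x, (A.g x * z x ^ 4 + A.b x * z x ^ 2)) =
      ∏ k, (z k ^ m k * Real.exp (-(A.g k * z k ^ 4 + A.b k * z k ^ 2))) := by
    intro z
    rw [Finset.prod_mul_distrib, ← Real.exp_sum, ← Finset.sum_neg_distrib]
  simp only [h1]
  rw [integral_fintype_prod_volume_eq_prod (fun k t => t ^ m k *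
    Real.exp (-(A.g k * t ^ 4 + A.b k * t ^ 2)))]
  exact Finset.prod_nonneg fun k _ => one_dim _ _ _

theorem pf_GKS (hLAW : T_LAW) (hEXQ : T_EXQ) : T_GKS := by
  intro d e A m
  obtain ⟨-, hZ, -, hI, -⟩ := hLAW d e A
  obtain ⟨hint, -, -, -, -⟩ := hLAW d e (A0 A)
  set U : (Fin A.N → ℝ) → ℝ := fun z => ∑ x, (A.g x * z x ^ 4 + A.b x * z x ^ 2) with hU
  have hHU : ∀ z, A.H z = U z - ∑ k, ∑ l, A.J k l / 2 * z k * z l := by
    intro z
    unfold Sys.H
    rw [hU, Finset.mul_sum]
    simp only [Finset.mul_sum]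
    congr 1
    refine Finset.sum_congr rfl fun k _ => Finset.sum_congr rfl fun l _ => ?_
    ring
  have hUm : Measurable (fun z : Fin A.N → ℝ => ENNReal.ofReal (Real.exp (-U z))) := by
    apply Measurable.ennreal_ofReal
    apply Measurable.exp
    apply Measurable.neg
    rw [hU]
    fun_prop
  have hfin : ∀ᵐ z : Fin A.N → ℝ, ENNReal.ofReal (Real.exp (-U z)) < ∞ :=
    Filter.Eventually.of_forall fun z => ENNReal.ofReal_lt_top
  have htr : ∀ F : (Fin A.N → ℝ) → ℝ,
      ∫ z, F z ∂(volume.withDensity (fun z : Fin A.N → ℝ => ENNReal.ofReal (Real.exp (-U z)))) =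
        ∫ z, F z * Real.exp (-U z) := by
    intro F
    rw [integral_withDensity_eq_integral_toReal_smul hUm hfin]
    refine integral_congr_ae (Filter.Eventually.of_forall fun z => ?_)
    simp only [smul_eq_mul]
    rw [ENNReal.toReal_ofReal (Real.exp_pos _).le, mul_comm]
  constructor
  · rw [hI]
    refine div_nonneg ?_ hZ.le
    have h1 := hEXQ (Fin A.N → ℝ)
      (volume.withDensity (fun z : Fin A.N → ℝ => ENNReal.ofReal (Real.exp (-U z)))) (Fin A.N)
      (fun k z => z k) (fun k l => A.J k l / 2) (fun k => measurable_pi_apply k) ?_ ?_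
      (fun k l => div_nonneg (A.J_nonneg k l) (by norm_num)) m
    · rw [htr] at h1
      refine h1.trans_eq (integral_congr_ae (Filter.Eventually.of_forall fun z => ?_))
      simp only
      rw [mul_assoc, ← Real.exp_add, hHU]
      congr 2
      ring
    · intro C
      rw [integrable_withDensity_iff_integrable_smul' hUm hfin]
      refine (hint C).congr (Filter.Eventually.of_forall fun z => ?_)
      simp only [smul_eq_mul]
      have e0 : (A0 A).H z = U z := A0_H A z
      have e1 : C * ∑ x, z x ^ 2 - (A0 A).H z = -U z + C * ∑ k, z k ^ 2 := by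
        rw [e0]
        ring
      rw [ENNReal.toReal_ofReal (Real.exp_pos _).le, ← Real.exp_add, e1]
      rfl
    · intro m'
      rw [htr]
      exact base_pos A m'
  · intro hodd
    rw [hI]
    have h1 := integral_neg_eq_self (fun φ : Fin A.N → ℝ => (∏ x, φ x ^ m x) * Real.exp (-A.H φ))
      volume
    have h2 : ∀ φ : Fin A.N → ℝ, (∏ x, (-φ) x ^ m x) * Real.exp (-A.H (-φ)) =
        -((∏ x, φ x ^ m x) * Real.exp (-A.H φ)) := by
      intro φ
      have e1 : A.H (-φ) = A.H φ := by
        unfold Sys.H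
        simp only [Pi.neg_apply]
        congr 1
        · refine Finset.sum_congr rfl fun x _ => ?_
          rw [(by decide : Even 4).neg_pow, (by decide : Even 2).neg_pow]
        · congr 1
          refine Finset.sum_congr rfl fun x _ => Finset.sum_congr rfl fun y _ => ?_
          ring
      have e2 : ∏ x, (-φ) x ^ m x = -∏ x, φ x ^ m x := by
        have e3 : ∀ x, (-φ) x ^ m x = (-1) ^ m x * φ x ^ m x := by
          intro x
          rw [Pi.neg_apply, neg_pow]
        simp only [e3]
        rw [Finset.prod_mul_distrib, Finset.prod_pow_eq_pow_sum, hodd.neg_one_pow]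
        ring
      rw [e1, e2]
      ring
    simp only [h2] at h1
    rw [integral_neg] at h1
    have h3 : ∫ φ : Fin A.N → ℝ, (∏ x, φ x ^ m x) * Real.exp (-A.H φ) = 0 := by linarith
    rw [h3, zero_div]

end Pool.Agent.H94.LD
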